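import Pool.Agent.LIH.Final

/-!
# Locally injective homomorphisms: `H`-LIHOM is NP-complete for almost all graphs `H`

Q1 of MP_37fcc1_lc, partial answer.
-/

namespace Pool.Agent.Results.MP_37fcc1_lc.AlmostAllHard

open Pool.Agent.LIH Filter Topology

/-- `H`-LIHOM is NP-complete for every graph `H` with at least three vertices in the class `Rich4`
(every two distinct vertices have at least four common neighbours, or `H` is bipartite and this holds
for every two distinct vertices in the same part), and this class contains almost all graphs. -/
theorem result :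
    (∀ (n : ℕ) (H : SimpleGraph (Fin n)), 3 ≤ n → Rich4 H → NPComplete (LIHOM H)) ∧
    Tendsto (fun n : ℕ => ({H : SimpleGraph (Fin n) | Rich4 H}.ncard : ℝ) /
      (Nat.card (SimpleGraph (Fin n)) : ℝ)) atTop (𝓝 1) :=
  ⟨fun _ _ h3 hH => npc_of_rich4 h3 hH, almost_rich4⟩

end Pool.Agent.Results.MP_37fcc1_lc.AlmostAllHard
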