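import Pool.Agent.LHE.FinE

/-!
# Locally injective homomorphisms: `H`-LIHOM is NP-complete for all connected graphs `H` of minimum degree at
least 3 and maximum degree at least 4, also with pendant trees and with further components

Q1 of MP_37fcc1_lc, partial answer.
-/

namespace Pool.Agent.Results.MP_37fcc1_lc.CoreMinDegreeThree

open Pool.Agent.LIH

/-- every vertex of `S` has at least two neighbours in `S` -/
def TwoNeighbours {V : Type} (H : SimpleGraph V) (S : Set V) : Prop :=
  ∀ v ∈ S, 2 ≤ (H.neighborSet v ∩ S).ncard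

/-- the 2-core of `H`: the largest set of vertices in which every vertex has at least two neighbours -/
def TwoCore {V : Type} (H : SimpleGraph V) : Set V := {v | ∃ S, TwoNeighbours H S ∧ v ∈ S}

/-- Let `H` be a graph and `C` a set of vertices such that the induced graph `H[C]` is connected, no vertex of `C`
is adjacent to a vertex of the 2-core of `H` outside `C`, all degrees in `H[C]` are at least 3, and `C` contains a
vertex `x` whose degree in `H[C]` is at least 4 and larger than the degree in the 2-core of every vertex of the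
2-core outside `C`. Then `H`-LIHOM is NP-complete. -/
theorem result {n : ℕ} (H : SimpleGraph (Fin n)) (C : Set (Fin n)) (x : Fin n)
    (hcon : (H.induce C).Connected)
    (hcl : ∀ u v, u ∈ C → v ∈ TwoCore H → H.Adj u v → v ∈ C)
    (h3 : ∀ v ∈ C, 3 ≤ (H.neighborSet v ∩ C).ncard)
    (hx : x ∈ C) (h4 : 4 ≤ (H.neighborSet x ∩ C).ncard)
    (hmax : ∀ v ∈ TwoCore H, v ∉ C →
      (H.neighborSet v ∩ TwoCore H).ncard < (H.neighborSet x ∩ C).ncard) :
    NPComplete (LIHOM H) :=
  Pool.Agent.LHE.npcE ⟨hcon, hcl, h3, hx, h4, hmax⟩

/-- The case in which `C` is the set of all vertices: `H` is connected, all degrees are at least 3 and some degree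
is at least 4. -/
theorem connected_case {n : ℕ} (H : SimpleGraph (Fin n)) (hc : H.Connected)
    (h3 : ∀ v, 3 ≤ (H.neighborSet v).ncard) (h4 : ∃ v, 4 ≤ (H.neighborSet v).ncard) :
    NPComplete (LIHOM H) := by
  obtain ⟨x, hx⟩ := h4
  refine result H Set.univ x ?_ (fun _ v _ _ _ => Set.mem_univ v) (fun v _ => ?_)
    (Set.mem_univ x) ?_ (fun v _ hv => absurd (Set.mem_univ v) hv)
  · exact (SimpleGraph.Iso.connected_iff (SimpleGraph.induceUnivIso H)).2 hc
  · rw [Set.inter_univ]
    exact h3 v
  · rw [Set.inter_univ]
    exact hx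

end Pool.Agent.Results.MP_37fcc1_lc.CoreMinDegreeThree
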